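import Pool.Agent.W2helper61.Dim.Final

/-!
Relative to some oracle, `NP` has `p`-measure zero, so that `μ(NP | E) = 0` and `μ(NP | E₂) = 0`, but
`NP` has dimension one in `E` and in `E₂`.
-/

set_option autoImplicit false

namespace Pool.Agent.Results.MP_a0edbc_lc.DimensionOneMeasureZero

open Pool.Agent.H628R3.RO Pool.Agent.W2helper61.Mes Pool.Agent.W2helper61.Dim

theorem result : ∃ A : Oracle,
    (NullP A {L | IsNP A L} ∧ NullP A {L | IsNP A L ∧ InE A L} ∧
      NullP2 A {L | IsNP A L ∧ InE2 A L}) ∧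
    ¬ SmallDim A {L | IsNP A L ∧ InE A L} ∧ ¬ SmallDim2 A {L | IsNP A L ∧ InE2 A L} := by
  obtain ⟨A, h1, h2, h3⟩ := dimension_oracle
  exact ⟨A, ⟨h1, NullP_mono h1 fun _ h => h.1, nullP2_of (NullP_mono h1 fun _ h => h.1)⟩, h2, h3⟩

end Pool.Agent.Results.MP_a0edbc_lc.DimensionOneMeasureZero
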