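import Pool.Agent.W2helper50.MG.Done

/-!
# For how many oracles is NP small?

Relative to almost every oracle `NP` does not have `p`-measure zero (Kautz and Miltersen 1994). The
theorem says that the exceptional set is as large as a set of Lebesgue measure zero can be, in terms
of gauges.

Definitions.

* `NullP A X`, `NullP2 A X` (the class `X` of languages has a null cover which is `p`-computable,
  `p₂`-computable, relative to `A`), `InE`, `InE2`, `ones` are in `Pool.Agent.W2helper61.Mes.Defs`,
  `IsNP` in `Pool.Agent.H628R3.RO.Defs`.
* `Null f X` (the set `X` of oracles is null for the gauge `f`; `f = 0`: Lebesgue measure zero; the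
  larger `f` is, the fewer sets are null), `IsPSPACE`, `IsPHpoly` are in
  `Pool.Agent.H620R2.Gauge.Defs`, `IsPP` in `Pool.Agent.W2helper57.PPH.Defs`, `IsNEXP` in
  `Pool.Agent.H620R2.GaugeX.Defs`, `WithAdviceLen` in `Pool.Agent.W2helper57.NEX.Defs`.

Idea of the proof. Change a random oracle at very few places: for sparse lengths `m`, the first of
every stage `s` (`s ^ 4 ≤ g m`), and the first `s` machines `i`, the oracle tells, at places of
length more than `2 ^ m`, whether machine `i` accepts the first `3 s` strings of length `m`. The places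
are known in advance, so that a player who starts with capital `2 ^ (-(i + s + 2))`, waits for the
length `m` and then bets everything on these answers wins `3 s` times in a row. The number of the
changed bits among the first `N` bits of the oracle is less than `g (log₂ log₂ N)`, and so small
changes do not make a set of full measure null for a gauge `f ≥ g (log₂ log₂ N)`. The second part
follows with the theorems `MP_6cef49_lc.GaugeOfEquality` and `MP_a54059_lc.GaugeOfInclusion`, by
which the sets of the oracles that are removed are null for `f`.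
-/

set_option autoImplicit false

namespace Pool.Agent.Results.MP_a0edbc_lc.ManySmallWorlds

open Filter Pool.Agent.NPC
open Pool.Agent.H628R3.RO (IsNP)
open Pool.Agent.H620R2.Gauge (Oracle Null IsPP IsPHpoly IsPSPACE IsNEXP WithAdviceLen)
open Pool.Agent.W2helper61.Mes (ones NullP NullP2 InE InE2)

/-- Let `g` be nondecreasing, unbounded and computable in polynomial time in unary, and let the gauge
`f` satisfy `f N ≥ g (log₂ log₂ N)` for all large `N`.

(1) The set of the oracles `A` relative to which `PSPACE` and `NP` have `p`-measure zero (so that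
`μ(NP | E) = 0` and `μ(NP | E₂) = 0`) is not null for `f`.

(2) If moreover `f` is infinitely often at most `(log₂ log₂ N) ^ ε`, for every `ε > 0`, then the set of
those oracles in (1) relative to which `PP` is not contained in the polynomial hierarchy with
polynomial advice and, for every `c < 1`, the complement of some language in `NEXP` is not in `NEXP`
with advice of length `c n + O(1)`, is not null for `f`. -/
theorem result (g : ℕ → ℕ) (hg1 : Monotone g) (hg2 : Tendsto g atTop atTop)
    (hg3 : ∃ G : List Bool → List Bool, PolyTime G ∧ ∀ n, G (ones n) = ones (g n))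
    (f : ℕ → ℝ) (hf : ∀ᶠ N : ℕ in atTop, (g (Nat.log 2 (Nat.log 2 N)) : ℝ) ≤ f N) :
    (¬ Null f {A : Oracle | NullP A {L | IsPSPACE A L} ∧ NullP A {L | IsNP A L} ∧
        NullP A {L | IsNP A L ∧ InE A L} ∧ NullP2 A {L | IsNP A L ∧ InE2 A L}}) ∧
    ((∀ ε : ℝ, 0 < ε → ∃ᶠ N : ℕ in atTop, f N ≤ (Real.logb 2 (Real.logb 2 N)) ^ ε) →
      ¬ Null f {A : Oracle | (NullP A {L | IsPSPACE A L} ∧ NullP A {L | IsNP A L} ∧
        NullP A {L | IsNP A L ∧ InE A L} ∧ NullP2 A {L | IsNP A L ∧ InE2 A L}) ∧
        (∃ L, IsPP A L ∧ ¬ IsPHpoly A L) ∧
        ∀ c : ℝ, c < 1 → ∃ L, IsNEXP A L ∧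
          ∀ C : ℝ, ¬ WithAdviceLen (IsNEXP A) (fun n => c * n + C) Lᶜ}) :=
  Pool.Agent.W2helper50.MG.done g hg1 hg2 hg3 f hf

end Pool.Agent.Results.MP_a0edbc_lc.ManySmallWorlds
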