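import Pool.Agent.W2helper61.Mes.Final

/-!
Relative to some oracle, `μ(NP | E) = 0` but `μ(NP | E₂) ≠ 0`.
-/

set_option autoImplicit false

namespace Pool.Agent.Results.MP_a0edbc_lc.OracleSeparation

open Pool.Agent.H628R3.RO Pool.Agent.W2helper61.Mes

theorem result : ∃ A : Oracle, NullP A {L | IsNP A L ∧ InE A L} ∧
    ¬ NullP2 A {L | IsNP A L ∧ InE2 A L} :=
  oracle_separation

end Pool.Agent.Results.MP_a0edbc_lc.OracleSeparation
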